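import Pool.Agent.Helper29.HP.Defs
import Pool.Agent.Helper16.CubicBez
import Pool.Agent.Helper16.CommonZero

set_option autoImplicit false

/-!
HP-SIX, part 1: dehomogenisation, homogenisation, restriction to the line `z0 = 0`.
-/

namespace Pool.Agent.Helper27.HPS

open MvPolynomial Module Pool.Agent.Helper29.HP Pool.Agent.Helper16

theorem eval_dh2 (x : Fin 2 → ℂ) (G : P3) :
    eval x (dh2 G) = eval (Fin.cons 1 x : Fin 3 → ℂ) G := by
  have : (aeval x : P2 →ₐ[ℂ] ℂ).comp dh2 = aeval (Fin.cons 1 x : Fin 3 → ℂ) := by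
    apply MvPolynomial.algHom_ext
    intro i
    refine Fin.cases ?_ (fun j => ?_) i
    · simp [dh2]
    · simp [dh2]
  have h := DFunLike.congr_fun this G
  simpa [aeval_eq_eval] using h

theorem dh2_inj {G : P3} {n : ℕ} (hG : G.IsHomogeneous n) (h : dh2 G = 0) : G = 0 := by
  have h0 : X 0 * G = 0 := by
    apply MvPolynomial.funext
    intro v
    rw [map_mul, eval_X, map_zero]
    by_cases hv : v 0 = 0
    · rw [hv, zero_mul]
    · have hv' : v = v 0 • (Fin.cons 1 (fun i => (v 0)⁻¹ * v i.succ) : Fin 3 → ℂ) := by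
        funext i
        refine Fin.cases ?_ (fun j => ?_) i
        · simp
        · simp [hv]
      have : eval v G = 0 := by
        rw [hv', eval_smul_of_hom hG, ← eval_dh2, h, map_zero, mul_zero]
      rw [this, mul_zero]
  rcases mul_eq_zero.mp h0 with h1 | h1
  · exact absurd h1 (X_ne_zero 0)
  · exact h1

/-- homogenisation to degree `n` -/
noncomputable def hm (n : ℕ) (p : P2) : P3 :=
  ∑ i ∈ Finset.range (n + 1), X 0 ^ (n - i) * rename Fin.succ (homogeneousComponent i p)

theorem hm_hom (n : ℕ) (p : P2) : (hm n p).IsHomogeneous n := by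
  apply IsHomogeneous.sum
  intro i hi
  have h1 : (X 0 ^ (n - i) : P3).IsHomogeneous (n - i) := isHomogeneous_X_pow _ _
  have h2 : (rename Fin.succ (homogeneousComponent i p) : P3).IsHomogeneous i :=
    (homogeneousComponent_isHomogeneous i p).rename_isHomogeneous
  have h3 := h1.mul h2
  have : n - i + i = n := by
    have := Finset.mem_range.mp hi; omega
  rwa [this] at h3

theorem dh2_hm {n : ℕ} {p : P2} (hp : p.totalDegree ≤ n) : dh2 (hm n p) = p := by
  have h1 : ∀ q : P2, dh2 (rename Fin.succ q) = q := by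
    intro q
    rw [dh2, aeval_rename]
    have : ((Fin.cons 1 X : Fin 3 → P2) ∘ Fin.succ) = X := by
      funext i; simp
    rw [this]; simp
  have h2 : dh2 (X 0) = 1 := by simp [dh2]
  unfold hm
  rw [map_sum]
  simp only [map_mul, map_pow, h1, h2, one_pow, one_mul]
  have hs := sum_homogeneousComponent p
  have hsub : Finset.range (p.totalDegree + 1) ⊆ Finset.range (n + 1) :=
    Finset.range_mono (by omega)
  rw [← Finset.sum_subset hsub, hs]
  intro i _ hi
  apply homogeneousComponent_eq_zero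
  simp only [Finset.mem_range, not_lt] at hi; omega

theorem totalDegree_dh2 {G : P3} {n : ℕ} (hG : G.IsHomogeneous n) :
    (dh2 G).totalDegree ≤ n := by
  rw [dh2, aeval_def, eval₂_eq]
  refine (totalDegree_finsetSum _ _).trans (Finset.sup_le fun m hm => ?_)
  refine (totalDegree_mul _ _).trans ?_
  have h1 : (algebraMap ℂ P2 (coeff m G)).totalDegree = 0 := totalDegree_C _
  rw [h1, zero_add]
  refine (totalDegree_finsetProd _ _).trans ?_
  have hn := hG.degree_eq_sum_deg_support hm
  rw [hn]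
  refine Finset.sum_le_sum fun i _ => ?_
  refine (totalDegree_pow _ _).trans ?_
  have : ((Fin.cons 1 X : Fin 3 → P2) i).totalDegree ≤ 1 := by
    refine Fin.cases ?_ (fun j => ?_) i
    · simp
    · simp
  calc m i * ((Fin.cons 1 X : Fin 3 → P2) i).totalDegree ≤ m i * 1 := Nat.mul_le_mul_left _ this
    _ = m i := mul_one _

/-- restriction to the line `z0 = 0` -/
noncomputable def res0 : P3 →ₐ[ℂ] P2 := aeval (Fin.cons 0 X)

theorem eval_res0 (x : Fin 2 → ℂ) (G : P3) :
    eval x (res0 G) = eval (Fin.cons 0 x : Fin 3 → ℂ) G := by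
  have : (aeval x : P2 →ₐ[ℂ] ℂ).comp res0 = aeval (Fin.cons 0 x : Fin 3 → ℂ) := by
    apply MvPolynomial.algHom_ext
    intro i
    refine Fin.cases ?_ (fun j => ?_) i
    · simp [res0]
    · simp [res0]
  have h := DFunLike.congr_fun this G
  simpa [aeval_eq_eval] using h

theorem res0_rename (q : P2) : res0 (rename Fin.succ q) = q := by
  rw [res0, aeval_rename]
  have : ((Fin.cons 0 X : Fin 3 → P2) ∘ Fin.succ) = X := by
    funext i; simp
  rw [this]; simp

theorem res0_X0 : res0 (X 0) = 0 := by simp [res0]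

theorem X0_dvd_sub (G : P3) : X 0 ∣ G - rename Fin.succ (res0 G) := by
  induction G using MvPolynomial.induction_on with
  | C a => simp [res0]
  | add p q hp hq =>
    have : p + q - rename Fin.succ (res0 (p + q)) =
        (p - rename Fin.succ (res0 p)) + (q - rename Fin.succ (res0 q)) := by
      rw [map_add, map_add]; ring
    rw [this]; exact dvd_add hp hq
  | mul_X p i hp =>
    refine Fin.cases ?_ (fun j => ?_) i
    · rw [map_mul, res0_X0, mul_zero, map_zero, sub_zero]
      exact Dvd.intro_left _ rfl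
    · have h1 : res0 (X j.succ) = X j := by simp [res0]
      have : p * X j.succ - rename Fin.succ (res0 (p * X j.succ)) =
          (p - rename Fin.succ (res0 p)) * X j.succ := by
        rw [map_mul, map_mul, h1, rename_X]; ring
      rw [this]; exact hp.mul_right _

theorem X0_dvd {G : P3} (h : res0 G = 0) : X 0 ∣ G := by
  have := X0_dvd_sub G
  rwa [h, map_zero, sub_zero] at this

theorem res0_of_dvd {G : P3} (h : X 0 ∣ G) : res0 G = 0 := by
  obtain ⟨q, rfl⟩ := h
  rw [map_mul, res0_X0, zero_mul]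

theorem res0_hom {G : P3} {n : ℕ} (hG : G.IsHomogeneous n) : (res0 G).IsHomogeneous n := by
  apply isHomogeneous_of_eval
  intro a z
  have h1 : (Fin.cons 0 (a • z) : Fin 3 → ℂ) = a • (Fin.cons 0 z : Fin 3 → ℂ) := by
    funext i
    refine Fin.cases ?_ (fun j => ?_) i
    · simp
    · simp
  rw [eval_res0, eval_res0, h1, eval_smul_of_hom hG]

/-- a nonconstant binary form has a nontrivial zero -/
theorem exists_zero_binary {q : P2} {n : ℕ} (hq : q.IsHomogeneous n) (hu : ¬ IsUnit q)
    (h0 : q ≠ 0) : ∃ x : Fin 2 → ℂ, x ≠ 0 ∧ eval x q = 0 := by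
  have hn : n ≠ 0 := by
    rintro rfl
    apply hu
    have h1 : q = C (coeff 0 q) := by
      have := totalDegree_eq_zero_iff_eq_C.mp (Nat.le_zero.mp hq.totalDegree_le)
      exact this
    rw [h1]
    have h2 : coeff 0 q ≠ 0 := by
      intro h; rw [h, map_zero] at h1; exact h0 h1
    exact (isUnit_iff_ne_zero.mpr h2).map C
  obtain ⟨x, hx, h⟩ := exists_common_zero (fun _ : Fin 1 => q) (fun _ => by
    have := eval_smul_of_hom hq 0 0
    rw [zero_smul, zero_pow hn, zero_mul] at this
    exact this) (by simp)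
  exact ⟨x, hx, h 0⟩

theorem res0_relPrime {δ h : P3} {m n : ℕ} (hδ : δ.IsHomogeneous m) (hh : h.IsHomogeneous n)
    (hinf : ∀ z : Fin 3 → ℂ, z ≠ 0 → z 0 = 0 → eval z δ = 0 → eval z h ≠ 0) :
    IsRelPrime (res0 δ) (res0 h) := by
  have key : ∀ x : Fin 2 → ℂ, x ≠ 0 → eval x (res0 δ) = 0 → eval x (res0 h) ≠ 0 := by
    intro x hx h1
    rw [eval_res0] at h1 ⊢
    refine hinf _ (fun h0 => hx ?_) (by simp) h1
    funext i
    have := congrFun h0 i.succ
    simpa using this
  intro q hq1 hq2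
  by_contra hu
  have h00 : res0 δ ≠ 0 ∨ res0 h ≠ 0 := by
    by_contra hcon
    push Not at hcon
    have := key (Pi.single 0 1) (by simp) (by rw [hcon.1, map_zero])
    rw [hcon.2, map_zero] at this
    exact this rfl
  have hqh : ∃ k, q.IsHomogeneous k ∧ q ≠ 0 := by
    rcases h00 with h0 | h0
    · obtain ⟨r, hr⟩ := hq1
      obtain ⟨a, b, ha, -, -⟩ := hom_factor (hr ▸ res0_hom hδ) (hr ▸ h0)
      exact ⟨a, ha, fun h => h0 (by rw [hr, h, zero_mul])⟩
    · obtain ⟨r, hr⟩ := hq2
      obtain ⟨a, b, ha, -, -⟩ := hom_factor (hr ▸ res0_hom hh) (hr ▸ h0)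
      exact ⟨a, ha, fun h => h0 (by rw [hr, h, zero_mul])⟩
  obtain ⟨k, hk, hq0⟩ := hqh
  obtain ⟨x, hx, hxq⟩ := exists_zero_binary hk hu hq0
  refine key x hx ?_ ?_
  · obtain ⟨r, hr⟩ := hq1; rw [hr, map_mul, hxq, zero_mul]
  · obtain ⟨r, hr⟩ := hq2; rw [hr, map_mul, hxq, zero_mul]

/-- `z0` is not a zero divisor modulo `δ, h` -/
theorem cancel_X0 {δ h T E A : P3} (hrel : IsRelPrime (res0 δ) (res0 h)) (h0 : res0 δ ≠ 0)
    (hT : X 0 * T = δ * E + h * A) : ∃ E' A' : P3, T = δ * E' + h * A' := by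
  have h1 := congrArg res0 hT
  rw [map_mul, res0_X0, zero_mul, map_add, map_mul, map_mul] at h1
  have h2 : res0 δ ∣ res0 h * res0 A := ⟨-res0 E, by linear_combination -h1⟩
  obtain ⟨q, hq⟩ := hrel.dvd_of_dvd_mul_left h2
  obtain ⟨A', hA'⟩ := X0_dvd (G := A - δ * rename Fin.succ q) (by
    rw [map_sub, map_mul, res0_rename, hq, sub_self])
  have hE : X 0 ∣ E + h * rename Fin.succ q := by
    apply X0_dvd
    rw [map_add, map_mul, res0_rename]
    have h3 : res0 δ * (res0 E + res0 h * q) = 0 := by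
      rw [hq] at h1; linear_combination -h1
    exact (mul_eq_zero.mp h3).resolve_left h0
  obtain ⟨E', hE'⟩ := hE
  refine ⟨E', A', ?_⟩
  have h4 : (X 0 : P3) * (T - (δ * E' + h * A')) = 0 := by
    linear_combination hT + δ * hE' + h * hA'
  exact sub_eq_zero.mp ((mul_eq_zero.mp h4).resolve_left (X_ne_zero 0))

theorem cancel_X0_pow {δ h : P3} (hrel : IsRelPrime (res0 δ) (res0 h)) (h0 : res0 δ ≠ 0) (N : ℕ) :
    ∀ T E A : P3, X 0 ^ N * T = δ * E + h * A → ∃ E' A' : P3, T = δ * E' + h * A' := by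
  induction N with
  | zero => intro T E A h; exact ⟨E, A, by simpa using h⟩
  | succ N ih =>
    intro T E A h
    rw [pow_succ, mul_assoc] at h
    obtain ⟨E1, A1, h1⟩ := ih _ _ _ h
    exact cancel_X0 hrel h0 h1

end Pool.Agent.Helper27.HPS
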