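import Pool.Agent.Helper29.HP.St.Bez
import Pool.Agent.Helper29.HP.St.SqIdeal
import Pool.Agent.Helper29.HP.St.Irr
import Pool.Agent.Helper27.HPS.Base
import Pool.Agent.Helper27.PUR.Mtb

set_option autoImplicit false

/-!
HP-SIX, part 1: six sections, when the curves do not meet on the line `z0 = 0`.
-/

namespace Pool.Agent.Helper27.HPS

open MvPolynomial Module Pool.Agent.Helper29.HP Pool.Agent.Helper16

theorem comp_mul {p q : P3} {m : ℕ} (hp : p.IsHomogeneous m) (j : ℕ) :
    homogeneousComponent (m + j) (p * q) = p * homogeneousComponent j q := by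
  have h1 : p * q = ∑ i ∈ Finset.range (q.totalDegree + 1), p * homogeneousComponent i q := by
    rw [← Finset.mul_sum, sum_homogeneousComponent]
  rw [h1, map_sum]
  have h2 : ∀ i, homogeneousComponent (m + j) (p * homogeneousComponent i q) =
      if i = j then p * homogeneousComponent j q else 0 := by
    intro i
    rw [homogeneousComponent_of_mem (hp.mul (homogeneousComponent_isHomogeneous i q))]
    by_cases h : i = j
    · rw [if_pos h, if_pos (by rw [h]), h]
    · rw [if_neg h, if_neg (by omega)]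
  simp only [h2]
  rw [Finset.sum_ite_eq']
  split_ifs with h
  · rfl
  · rw [homogeneousComponent_eq_zero, mul_zero]
    simp only [Finset.mem_range, not_lt] at h; omega

theorem extract {δ h T E A : P3} {a b c d : ℕ} (hδ : δ.IsHomogeneous a) (hh : h.IsHomogeneous b)
    (hT : T.IsHomogeneous (a + c)) (hd : a + c = b + d) (h1 : T = δ * E + h * A) :
    T = δ * homogeneousComponent c E + h * homogeneousComponent d A := by
  have h2 := congrArg (homogeneousComponent (a + c)) h1
  rw [map_add, comp_mul hδ] at h2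
  rw [hd, comp_mul hh, ← hd] at h2
  rw [← h2, homogeneousComponent_of_mem hT, if_pos rfl]

theorem exists_A {δ h s s' : P3} {k : ℕ} (hδ : δ.IsHomogeneous 6)
    (hh : h.IsHomogeneous (2 * k + 3)) (hs : s.IsHomogeneous (k + 4)) (hs' : s'.IsHomogeneous (k + 4))
    (hrel : IsRelPrime (res0 δ) (res0 h)) (h0 : res0 δ ≠ 0)
    (hmem : dh2 (s * s') ∈ Ideal.span {dh2 δ, dh2 h}) :
    ∃ A : P3, A.IsHomogeneous 5 ∧ δ ∣ s * s' - h * A := by
  obtain ⟨a, b, hab⟩ := Ideal.mem_span_pair.mp hmem
  set N := a.totalDegree + b.totalDegree with hN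
  have e1 : X 0 ^ N * (s * s') = δ * hm (2 * k + 2 + N) a + h * hm (5 + N) b := by
    rw [← sub_eq_zero]
    apply dh2_inj (n := N + (2 * k + 8))
    · apply IsHomogeneous.sub
      · have h1 : (X 0 ^ N : P3).IsHomogeneous N := isHomogeneous_X_pow _ _
        have h2 := h1.mul (hs.mul hs')
        have : N + (k + 4 + (k + 4)) = N + (2 * k + 8) := by ring
        rwa [this] at h2
      · apply IsHomogeneous.add
        · have h2 := hδ.mul (hm_hom (2 * k + 2 + N) a)
          have : 6 + (2 * k + 2 + N) = N + (2 * k + 8) := by ring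
          rwa [this] at h2
        · have h2 := hh.mul (hm_hom (5 + N) b)
          have : 2 * k + 3 + (5 + N) = N + (2 * k + 8) := by ring
          rwa [this] at h2
    · rw [map_sub, map_add, map_mul dh2 (X 0 ^ N), map_mul dh2 δ, map_mul dh2 h, map_pow,
        dh2_hm (by omega), dh2_hm (by omega), ← hab]
      have : dh2 (X 0) = 1 := by simp [dh2]
      rw [this]; ring
  obtain ⟨E, A, hEA⟩ := cancel_X0_pow hrel h0 N _ _ _ e1
  have h2 := hs.mul hs'
  have e2 : k + 4 + (k + 4) = 6 + (2 * k + 2) := by ring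
  rw [e2] at h2
  have h3 := extract (d := 5) hδ hh h2 (by ring) hEA
  refine ⟨homogeneousComponent 5 A, homogeneousComponent_isHomogeneous _ _, ?_⟩
  rw [h3]
  exact ⟨homogeneousComponent (2 * k + 2) E, by ring⟩

/-- six independent sections by counting dimensions -/
theorem exists_six_vectors {δ : P3} (hδ : δ.IsHomogeneous 6) (hδ0 : δ ≠ 0) (k : ℕ) (b : Ideal P2)
    (hfb : dh2 δ ∈ b) (hfin : FiniteDimensional ℂ (P2 ⧸ b))
    (hrank : finrank ℂ (P2 ⧸ b) ≤ 6 * k + 9) :
    ∃ s : Fin 6 → P3, (∀ i, (s i).IsHomogeneous (k + 4)) ∧ (∀ i, dh2 (s i) ∈ b) ∧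
      ∀ c : Fin 6 → ℂ, δ ∣ ∑ i, C (c i) * s i → c = 0 := by
  let H := homogeneousSubmodule (Fin 3) ℂ (k + 4)
  let φ : H →ₗ[ℂ] (P2 ⧸ b) :=
    ((Ideal.Quotient.mkₐ ℂ b).comp dh2).toLinearMap ∘ₗ H.subtype
  have hφ : ∀ x : H, φ x = 0 ↔ dh2 (x : P3) ∈ b := by
    intro x
    exact Ideal.Quotient.eq_zero_iff_mem
  set W := LinearMap.ker φ with hW
  have hWr : finrank ℂ H ≤ (6 * k + 9) + finrank ℂ W := by
    have h1 : finrank ℂ (LinearMap.range φ) + finrank ℂ W = finrank ℂ H :=
      LinearMap.finrank_range_add_finrank_ker φ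
    have h3 : finrank ℂ (LinearMap.range φ) ≤ finrank ℂ (P2 ⧸ b) := Submodule.finrank_le _
    omega
  -- multiples of `δ`
  let D : Submodule ℂ H :=
    { carrier := {x | δ ∣ (x : P3)}
      add_mem' := fun {x y} hx hy => by
        exact dvd_add hx hy
      zero_mem' := dvd_zero _
      smul_mem' := fun c x hx => by
        change δ ∣ ((c • x : H) : P3)
        rw [Submodule.coe_smul, smul_eq_C_mul]
        exact hx.mul_left _ }
  have hD : ∀ x : H, x ∈ D ↔ δ ∣ (x : P3) := fun _ => Iff.rfl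
  have hDW : D ≤ W := by
    intro x hx
    rw [hW, LinearMap.mem_ker, hφ]
    obtain ⟨q, hq⟩ := (hD x).mp hx
    rw [hq, map_mul]
    exact b.mul_mem_right _ hfb
  have hquot : ∀ x : H, x ∈ D → (x : P3) ≠ 0 → ∃ q : P3, q.IsHomogeneous (k - 2) ∧ 2 ≤ k ∧
      (x : P3) = δ * q := by
    intro x hx hx0
    obtain ⟨q, hq⟩ := (hD x).mp hx
    obtain ⟨a, c, ha, hc, hac⟩ := hom_factor (hq ▸ (mem_homogeneousSubmodule _ _).mp x.2)
      (hq ▸ hx0)
    have ha6 : a = 6 := ha.inj_right hδ hδ0
    have hk : 2 ≤ k := by omega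
    have : c = k - 2 := by omega
    exact ⟨q, this ▸ hc, hk, hq⟩
  have hDr : finrank ℂ D ≤ k.choose 2 := by
    rcases Nat.lt_or_ge k 2 with hk | hk
    · have hbot : D = ⊥ := by
        rw [eq_bot_iff]
        intro x hx
        by_contra hne
        have hx0 : (x : P3) ≠ 0 := fun h => hne ((Submodule.mem_bot ℂ).mpr (Subtype.ext h))
        obtain ⟨_, _, h2, _⟩ := hquot x hx hx0
        omega
      rw [hbot, finrank_bot]; exact Nat.zero_le _
    · let ψ : homogeneousSubmodule (Fin 3) ℂ (k - 2) →ₗ[ℂ] H :=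
        { toFun := fun q => ⟨δ * (q : P3), by
            have h1 := hδ.mul ((mem_homogeneousSubmodule _ _).mp q.2)
            have : 6 + (k - 2) = k + 4 := by omega
            rw [this] at h1
            exact h1⟩
          map_add' := fun x y => Subtype.ext (mul_add _ _ _)
          map_smul' := fun c x => Subtype.ext (by
            change δ * (c • (x : P3)) = c • (δ * (x : P3))
            rw [mul_smul_comm]) }
      have hle : D ≤ LinearMap.range ψ := by
        intro x hx
        by_cases hx0 : (x : P3) = 0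
        · exact ⟨0, by rw [map_zero]; exact (Subtype.ext hx0).symm⟩
        · obtain ⟨q, hq, _, hxq⟩ := hquot x hx hx0
          exact ⟨⟨q, hq⟩, Subtype.ext hxq.symm⟩
      have h1 := (Submodule.finrank_mono hle).trans (LinearMap.finrank_range_le ψ)
      rw [finrank_hom3] at h1
      have : k - 2 + 2 = k := by omega
      rwa [this] at h1
  -- six independent classes
  have h6 : 6 ≤ finrank ℂ (W.map D.mkQ) := by
    have h1 := PUR.finrank_map_add D.mkQ W
    rw [Submodule.ker_mkQ, inf_eq_right.mpr hDW] at h1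
    rw [finrank_hom3] at hWr
    have g1 : ∀ j : ℕ, 2 * (j + 1).choose 2 = (j + 1) * j := by
      intro j
      rw [Nat.choose_two_right]
      have : 2 ∣ (j + 1) * (j + 1 - 1) := by
        have := Nat.even_mul_succ_self j
        have h2 : (j + 1) * (j + 1 - 1) = j * (j + 1) := by
          rw [Nat.add_sub_cancel]; ring
        rw [h2]
        exact this.two_dvd
      rw [Nat.mul_div_cancel' this]
      congr 1
    have g2 : 2 * k.choose 2 + k = k * k := by
      rcases k with _ | k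
      · rfl
      · rw [g1]; ring
    have c1 := g1 (k + 5)
    nlinarith
  let bb := finBasis ℂ (W.map D.mkQ)
  have hlift : ∀ i : Fin 6, ∃ w ∈ W, D.mkQ w = (bb (Fin.castLE h6 i) : H ⧸ D) := by
    intro i
    obtain ⟨w, hw, hwe⟩ := (bb (Fin.castLE h6 i)).2
    exact ⟨w, hw, hwe⟩
  choose w hwW hwe using hlift
  refine ⟨fun i => (w i : P3), fun i => (mem_homogeneousSubmodule _ _).mp (w i).2,
    fun i => (hφ _).mp (LinearMap.mem_ker.mp (hwW i)), fun c hc => ?_⟩
  have h1 : ∑ i, c i • w i ∈ D := by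
    rw [hD, Submodule.coe_sum]
    simpa [smul_eq_C_mul] using hc
  have h2 : ∑ i, c i • bb (Fin.castLE h6 i) = 0 := by
    apply Subtype.ext
    rw [Submodule.coe_sum]
    have h3 : D.mkQ (∑ i, c i • w i) = 0 := by
      rw [Submodule.mkQ_apply, Submodule.Quotient.mk_eq_zero]; exact h1
    rw [map_sum] at h3
    simp only [map_smul, hwe] at h3
    simpa using h3
  have hli := bb.linearIndependent.comp (Fin.castLE h6) (Fin.castLE_injective h6)
  rw [Fintype.linearIndependent_iff] at hli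
  funext i
  exact hli c h2 i

theorem exists_six_affine (δ h : P3) (k : ℕ) (hδ : δ.IsHomogeneous 6)
    (hsm : ∀ z : Fin 3 → ℂ, z ≠ 0 → eval z δ = 0 → ∃ i, eval z (pderiv i δ) ≠ 0)
    (hh : h.IsHomogeneous (2 * k + 3)) (hδh : ¬ δ ∣ h) (hev : EvenOn δ h)
    (hinf : ∀ z : Fin 3 → ℂ, z ≠ 0 → z 0 = 0 → eval z δ = 0 → eval z h ≠ 0) :
    ∃ (s : Fin 6 → P3) (A : Matrix (Fin 6) (Fin 6) P3), (∀ i, (s i).IsHomogeneous (k + 4)) ∧
      (∀ c : Fin 6 → ℂ, δ ∣ ∑ i, C (c i) * s i → c = 0) ∧ A.IsSymm ∧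
      (∀ i j, (A i j).IsHomogeneous 5) ∧ ∀ i j, δ ∣ s i * s j - h * A i j := by
  have hirr : Irreducible δ := irreducible_of_smooth (by norm_num) hδ hsm
  have hrel := res0_relPrime hδ hh hinf
  have hr0 : res0 δ ≠ 0 := by
    intro h0
    rw [h0] at hrel
    have hu : IsUnit (res0 h) := hrel (dvd_zero _) dvd_rfl
    have h1 := res0_hom hh
    obtain ⟨c, hc, hce⟩ := (MvPolynomial.isUnit_iff_eq_C_of_isReduced).mp hu
    have h2 : (res0 h).IsHomogeneous 0 := by rw [hce]; exact isHomogeneous_C _ _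
    have := h1.inj_right h2 hu.ne_zero
    omega
  have hX0 : ¬ X 0 ∣ δ := fun hd => hr0 (res0_of_dvd hd)
  have hirr2 : Irreducible (dh2 δ) := irreducible_dh2 hδ hirr hX0
  have hsm2 := smooth_dh2 hδ hsm
  have hfh : ¬ dh2 δ ∣ dh2 h := fun hd => hδh (dvd_of_dh2_dvd hδ hh hirr hX0 hd)
  have hrel2 : IsRelPrime (dh2 δ) (dh2 h) := hirr2.isRelPrime_iff_not_dvd.mpr hfh
  obtain ⟨hfin, hrk⟩ := bezout_dim (dh2 δ) (dh2 h) 6 (2 * k + 3) (totalDegree_dh2 hδ)
    (totalDegree_dh2 hh) hrel2
  obtain ⟨b, hfb, hbb, hbf, hbr⟩ := exists_sq_ideal (dh2 δ) (dh2 h) hirr2 hsm2 hfh (by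
    intro P hP
    rw [eval_dh2] at hP
    obtain ⟨α, β, σ, h1, h2, h3⟩ := hev (Fin.cons 1 P) (fun h0 => by
      have := congrFun h0 0; simp at this) hP
    refine ⟨dh2 α, dh2 β, dh2 σ, by rwa [eval_dh2], by rwa [eval_dh2], ?_⟩
    have := map_dvd dh2 h3
    simpa using this) hfin
  obtain ⟨s, hs, hsb, hli⟩ := exists_six_vectors hδ hirr.ne_zero k b hfb hbf (by omega)
  have hA : ∀ i j, ∃ A : P3, A.IsHomogeneous 5 ∧ δ ∣ s i * s j - h * A := fun i j =>
    exists_A hδ hh (hs i) (hs j) hrel hr0 (by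
      rw [map_mul]; exact hbb _ (hsb i) _ (hsb j))
  choose A hA5 hAd using hA
  refine ⟨s, Matrix.of fun i j => if i ≤ j then A i j else A j i, hs, hli, ?_, ?_, ?_⟩
  · ext1 i j
    simp only [Matrix.transpose_apply, Matrix.of_apply]
    rcases lt_trichotomy i j with hij | rfl | hij
    · rw [if_pos hij.le, if_neg (not_le.mpr hij)]
    · rfl
    · rw [if_pos hij.le, if_neg (not_le.mpr hij)]
  · intro i j
    simp only [Matrix.of_apply]
    split_ifs
    · exact hA5 i j
    · exact hA5 j i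
  · intro i j
    simp only [Matrix.of_apply]
    split_ifs
    · exact hAd i j
    · rw [mul_comm (s i)]; exact hAd j i

end Pool.Agent.Helper27.HPS
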